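import Pool.Agent.W488.KS.Stm

/-!
# The generalised Clifford relations
-/

set_option autoImplicit false

open Matrix Finset Module

namespace Pool.Agent.W461.KS

open Pool.Agent.W544.PG Pool.Agent.W488.KS

noncomputable section

theorem rc_mul {m k l : ℕ} (P : Matrix (Fin m) (Fin k) ℚ) (Q : Matrix (Fin k) (Fin l) ℚ) :
    rc (P * Q) = rc P * rc Q := by
  ext i j
  simp only [rc, Matrix.map_apply, Matrix.mul_apply]
  push_cast
  rfl

theorem rc_add {m k : ℕ} (P Q : Matrix (Fin m) (Fin k) ℚ) : rc (P + Q) = rc P + rc Q := by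
  ext i j
  simp only [rc, Matrix.map_apply, Matrix.add_apply]
  push_cast
  rfl

theorem rc_neg {m k : ℕ} (P : Matrix (Fin m) (Fin k) ℚ) : rc (-P) = -rc P := by
  ext i j
  simp only [rc, Matrix.map_apply, Matrix.neg_apply]
  push_cast
  rfl

theorem rc_transpose {m k : ℕ} (P : Matrix (Fin m) (Fin k) ℚ) : rc Pᵀ = (rc P)ᵀ := rfl

theorem rc_eq {m : ℕ} (P : Matrix (Fin m) (Fin m) ℚ) : rc P = mC P := rfl

theorem mC_det {m : ℕ} (P : Matrix (Fin m) (Fin m) ℚ) : (mC P).det = ((P.det : ℚ) : ℂ) := by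
  have h := RingHom.map_det (Rat.castHom ℂ) P
  exact h.symm

theorem det_ne {w : ℕ} (W : HW w) : W.E.det ≠ 0 := by
  intro h0
  have h1 : (mC W.E * ((2 * Complex.I) • W.y)).det = 0 := by
    rw [det_mul, mC_det, h0]
    simp
  obtain ⟨v, hv, hv0⟩ := exists_mulVec_eq_zero_iff.2 h1
  have h2 := W.pos v hv
  rw [hv0] at h2
  simp at h2

theorem inv_skew {w : ℕ} (W : HW w) : rc W.E⁻¹ * W.yᵀ = -(W.y * rc W.E⁻¹) := by
  have hu : IsUnit W.E.det := isUnit_iff_ne_zero.2 (det_ne W)
  have h1 : rc W.E⁻¹ * mC W.E = 1 := by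
    rw [← rc_eq, ← rc_mul, Matrix.nonsing_inv_mul _ hu]
    ext i j
    simp only [rc, Matrix.map_apply, Matrix.one_apply]
    split_ifs <;> simp
  have h2 : mC W.E * rc W.E⁻¹ = 1 := by
    rw [← rc_eq, ← rc_mul, Matrix.mul_nonsing_inv _ hu]
    ext i j
    simp only [rc, Matrix.map_apply, Matrix.one_apply]
    split_ifs <;> simp
  have h3 := W.skew
  calc rc W.E⁻¹ * W.yᵀ = rc W.E⁻¹ * W.yᵀ * (mC W.E * rc W.E⁻¹) := by rw [h2, mul_one]
    _ = rc W.E⁻¹ * (W.yᵀ * mC W.E + mC W.E * W.y) * rc W.E⁻¹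
        - (rc W.E⁻¹ * mC W.E) * (W.y * rc W.E⁻¹) := by noncomm_ring
    _ = -(W.y * rc W.E⁻¹) := by rw [h3, h1]; simp

section core
variable {n a b : ℕ}

/-- complex functionals -/
def cL (M : Fin n → Fin n → Matrix (Fin a) (Fin a) ℚ) :
    Matrix (Fin a) (Fin a) ℂ →ₗ[ℂ] ((Fin 2 → Fin n) → ℂ) where
  toFun P J := (P * mC (M (J 0) (J 1))).trace
  map_add' P P' := by
    funext J
    rw [add_mul, trace_add]
    rfl
  map_smul' c P := by
    funext J
    rw [smul_mul_assoc, trace_smul]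
    rfl

/-- rational functionals -/
def gL (M : Fin n → Fin n → Matrix (Fin a) (Fin a) ℚ) :
    Matrix (Fin a) (Fin a) ℚ →ₗ[ℚ] ((Fin 2 → Fin n) → ℚ) where
  toFun P J := (P * M (J 0) (J 1)).trace
  map_add' P P' := by
    funext J
    rw [add_mul, trace_add]
    rfl
  map_smul' c P := by
    funext J
    rw [smul_mul_assoc, trace_smul]
    rfl

theorem cx_gL (M : Fin n → Fin n → Matrix (Fin a) (Fin a) ℚ) (P : Matrix (Fin a) (Fin a) ℚ) :
    cx (gL M P) = cL M (mC P) := by
  funext J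
  show ((((P * M (J 0) (J 1)).trace : ℚ)) : ℂ) = (mC P * mC (M (J 0) (J 1))).trace
  rw [← rc_eq, ← rc_eq, ← rc_mul]
  simp only [Matrix.trace, Matrix.diag, rc, Matrix.map_apply]
  push_cast
  rfl

theorem mem_cspan (M : Fin n → Fin n → Matrix (Fin a) (Fin a) ℚ) (w : (Fin 2 → Fin n) → ℂ) :
    w ∈ cspan (LinearMap.range (gL M)) ↔ ∃ P, w = cL M P := by
  constructor
  · intro hw
    unfold cspan at hw
    induction hw using Submodule.span_induction with
    | mem x hx =>
      obtain ⟨r, ⟨P, rfl⟩, rfl⟩ := hx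
      exact ⟨mC P, cx_gL M P⟩
    | zero => exact ⟨0, (map_zero _).symm⟩
    | add x y _ _ hx hy =>
      obtain ⟨P, rfl⟩ := hx
      obtain ⟨P', rfl⟩ := hy
      exact ⟨P + P', (map_add _ _ _).symm⟩
    | smul c x _ hx =>
      obtain ⟨P, rfl⟩ := hx
      exact ⟨c • P, (map_smul _ _ _).symm⟩
  · rintro ⟨P, rfl⟩
    have h1 : P = ∑ k, ∑ l, P k l • mC (Matrix.single k l (1 : ℚ)) := by
      conv_lhs => rw [Matrix.matrix_eq_sum_single P]
      refine sum_congr rfl fun k _ => sum_congr rfl fun l _ => ?_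
      ext i j
      simp only [mC, Matrix.smul_apply, Matrix.map_apply, Matrix.single_apply, smul_eq_mul]
      split_ifs <;> simp
    rw [h1]
    simp only [map_sum, map_smul]
    refine Submodule.sum_mem _ fun k _ => Submodule.sum_mem _ fun l _ =>
      Submodule.smul_mem _ _ ?_
    rw [← cx_gL]
    exact Submodule.subset_span ⟨_, ⟨_, rfl⟩, rfl⟩

theorem core (h : S_gcr) (T : HS n) (hn : 3 ≤ n) (hs : T.Scalar) (ht : (T.x * T.x).trace = 2)
    (y : Matrix (Fin a) (Fin a) ℂ) (z : Matrix (Fin b) (Fin b) ℂ) (hy : (4 : ℂ) • (y * y) = 1)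
    (ψ : Fin n → Matrix (Fin a) (Fin b) ℚ) (φ : Fin n → Matrix (Fin b) (Fin a) ℚ)
    (h1 : ∀ i, ∑ l, T.x l i • rc (ψ l) = y * rc (ψ i) - rc (ψ i) * z)
    (h2 : ∀ i, ∑ l, T.x l i • rc (φ l) = z * rc (φ i) - rc (φ i) * y) :
    ∃ c : Matrix (Fin a) (Fin a) ℚ, (∀ i j, ψ i * φ j + ψ j * φ i = T.Q i j • c) ∧
      mC c * y = y * mC c := by
  obtain ⟨M, hM⟩ : ∃ M : Fin n → Fin n → Matrix (Fin a) (Fin a) ℚ,
    ∀ i j, M i j = ψ i * φ j + ψ j * φ i := ⟨_, fun _ _ => rfl⟩
  have hMs : ∀ i j, M i j = M j i := fun i j => by rw [hM, hM, add_comm]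
  have hMc : ∀ i j, mC (M i j) = rc (ψ i) * rc (φ j) + rc (ψ j) * rc (φ i) := fun i j => by
    rw [hM, ← rc_eq, rc_add, rc_mul, rc_mul]
  have hk : ∀ i j, ∑ l, T.x l i • mC (M l j) + ∑ l, T.x l j • mC (M i l) =
      y * mC (M i j) - mC (M i j) * y := by
    intro i j
    have e1 : ∑ l, T.x l i • mC (M l j) =
        (∑ l, T.x l i • rc (ψ l)) * rc (φ j) + rc (ψ j) * ∑ l, T.x l i • rc (φ l) := by
      rw [Matrix.sum_mul, Matrix.mul_sum, ← sum_add_distrib]
      refine sum_congr rfl fun l _ => ?_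
      rw [hMc, smul_add, Matrix.smul_mul, Matrix.mul_smul]
    have e2 : ∑ l, T.x l j • mC (M i l) =
        rc (ψ i) * (∑ l, T.x l j • rc (φ l)) + (∑ l, T.x l j • rc (ψ l)) * rc (φ i) := by
      rw [Matrix.sum_mul, Matrix.mul_sum, ← sum_add_distrib]
      refine sum_congr rfl fun l _ => ?_
      rw [hMc, smul_add, Matrix.smul_mul, Matrix.mul_smul]
    rw [e1, e2, h1, h2, h1, h2, hMc]
    simp only [Matrix.mul_add, Matrix.add_mul, Matrix.mul_sub, Matrix.sub_mul, Matrix.mul_assoc]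
    abel
  have hact : ∀ P, act T.x (cL M P) = cL M (P * y - y * P) := by
    intro P
    funext J
    have e0 : act T.x (cL M P) J =
        ∑ l, T.x l (J 0) * (P * mC (M l (J 1))).trace +
          ∑ l, T.x l (J 1) * (P * mC (M (J 0) l)).trace := by
      show ∑ j : Fin 2, ∑ l, T.x l (J j) * (P * mC (M (Function.update J j l 0)
        (Function.update J j l 1))).trace = _
      rw [Fin.sum_univ_two]
      simp
    have e1 : ∑ l, T.x l (J 0) * (P * mC (M l (J 1))).trace +
        ∑ l, T.x l (J 1) * (P * mC (M (J 0) l)).trace =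
        (P * (∑ l, T.x l (J 0) • mC (M l (J 1)) + ∑ l, T.x l (J 1) • mC (M (J 0) l))).trace := by
      rw [mul_add, trace_add, Finset.mul_sum, Finset.mul_sum, trace_sum, trace_sum]
      simp only [mul_smul_comm, trace_smul, smul_eq_mul]
    rw [e0, e1, hk]
    show _ = ((P * y - y * P) * mC (M (J 0) (J 1))).trace
    rw [mul_sub, sub_mul, trace_sub, trace_sub, ← Matrix.mul_assoc, ← Matrix.mul_assoc]
    congr 1
    rw [Matrix.mul_assoc y P, trace_mul_comm y]
  have hyy : y * y = (1 / 4 : ℂ) • (1 : Matrix (Fin a) (Fin a) ℂ) := by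
    rw [← hy, smul_smul]
    norm_num
  have hD : ∀ P : Matrix (Fin a) (Fin a) ℂ,
      ((P * y - y * P) * y - y * (P * y - y * P)) * y -
        y * ((P * y - y * P) * y - y * (P * y - y * P)) = P * y - y * P := by
    intro P
    have e1 : ((P * y - y * P) * y - y * (P * y - y * P)) * y -
        y * ((P * y - y * P) * y - y * (P * y - y * P)) =
        P * (y * y) * y - (3 : ℂ) • (y * P * (y * y)) + (3 : ℂ) • ((y * y) * P * y)
          - y * (y * y) * P := by
      simp only [mul_sub, sub_mul, Matrix.mul_assoc]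
      module
    rw [e1, hyy]
    simp only [mul_smul_comm, smul_mul_assoc, mul_one, one_mul]
    module
  have hgc := h n T hn hs ht (LinearMap.range (gL M)) ?_ ?_ ?_
  · have hc : ∀ k l, ∃ c : ℚ, ∀ i j, M i j k l = c * T.Q i j := by
      intro k l
      obtain ⟨c, hc⟩ := hgc (gL M (Matrix.single l k 1)) ⟨_, rfl⟩
      refine ⟨c, fun i j => ?_⟩
      rw [← hc i j]
      show _ = (Matrix.single l k 1 * M i j).trace
      rw [Matrix.trace_single_mul]
      simp
    choose c hc using hc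
    have hc' : ∀ i j, M i j = T.Q i j • Matrix.of c := by
      intro i j
      ext k l
      rw [hc, Matrix.smul_apply, smul_eq_mul, mul_comm]
      rfl
    refine ⟨Matrix.of c, fun i j => by rw [← hM, hc'], ?_⟩
    have hmc : ∀ i j, mC (M i j) = ((T.Q i j : ℚ) : ℂ) • mC (Matrix.of c) := by
      intro i j
      rw [hc' i j]
      ext k l
      simp only [mC, Matrix.map_apply, Matrix.smul_apply, smul_eq_mul]
      push_cast
      rfl
    have hz : ∀ i j, ((T.Q i j : ℚ) : ℂ) • (y * mC (Matrix.of c) - mC (Matrix.of c) * y) = 0 := by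
      intro i j
      have e1 := hk i j
      have e2 : ∑ l, T.x l i • mC (M l j) + ∑ l, T.x l j • mC (M i l) =
          ((T.xᵀ * mC T.Q + mC T.Q * T.x) i j) • mC (Matrix.of c) := by
        rw [Matrix.add_apply, Matrix.mul_apply, Matrix.mul_apply, add_smul, Finset.sum_smul,
          Finset.sum_smul]
        congr 1
        · refine sum_congr rfl fun l _ => ?_
          rw [hmc, smul_smul]
          rfl
        · refine sum_congr rfl fun l _ => ?_
          rw [hmc, smul_smul, mul_comm]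
          rfl
      rw [e2, T.skew, Matrix.zero_apply, zero_smul, hmc] at e1
      rw [smul_sub, ← mul_smul_comm, ← smul_mul_assoc]
      exact e1.symm
    have hQ : ∃ i j, T.Q i j ≠ 0 := by
      by_contra hcon
      push_neg at hcon
      have e0 : T.Q = 0 := by
        ext i j
        exact hcon i j
      have e1 := T.pos (fun _ => 1) (fun h => one_ne_zero (congrFun h ⟨0, by omega⟩))
      have e2 : mC T.Q = 0 := by
        rw [e0]
        ext i j
        simp [mC]
      rw [e2] at e1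
      simp at e1
    obtain ⟨i, j, hij⟩ := hQ
    have e3 := (smul_eq_zero.1 (hz i j)).resolve_left (by exact_mod_cast hij)
    exact (sub_eq_zero.1 e3).symm
  · intro w hw
    obtain ⟨P, rfl⟩ := (mem_cspan M w).1 hw
    rw [hact]
    exact (mem_cspan M _).2 ⟨_, rfl⟩
  · rintro r ⟨P, rfl⟩ i j
    show (P * M i j).trace = (P * M j i).trace
    rw [hMs]
  · intro w hw
    obtain ⟨P, rfl⟩ := (mem_cspan M w).1 hw
    rw [hact, hact, hact, hD]

end core

theorem rel (h : S_gcr) : S_rel := by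
  intro n a b T A B Θ hn hs ht hΘ
  have h1 : ∀ i, ∑ l, T.x l i • rc (psi A Θ l) = A.y * rc (psi A Θ i) - rc (psi A Θ i) * B.y := by
    intro i
    have e1 : ∑ l, T.x l i • rc (psi A Θ l) = rc A.E⁻¹ * ∑ l, T.x l i • rc (Θ l) := by
      rw [Matrix.mul_sum]
      refine sum_congr rfl fun l _ => ?_
      rw [Matrix.mul_smul, psi, rc_mul]
    have e2 : ∑ l, T.x l i • rc (Θ l) = -(A.yᵀ * rc (Θ i)) - rc (Θ i) * B.y := by
      have := hΘ i
      rw [add_assoc] at this
      rw [eq_neg_of_add_eq_zero_left this]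
      abel
    rw [e1, e2, Matrix.mul_sub, Matrix.mul_neg, ← Matrix.mul_assoc, inv_skew, psi, rc_mul]
    simp only [Matrix.neg_mul, neg_neg, Matrix.mul_assoc]
  have h2 : ∀ i, ∑ l, T.x l i • rc (phi B Θ l) = B.y * rc (phi B Θ i) - rc (phi B Θ i) * A.y := by
    intro i
    have e1 : ∑ l, T.x l i • rc (phi B Θ l) = -(rc B.E⁻¹ * (∑ l, T.x l i • rc (Θ l))ᵀ) := by
      rw [transpose_sum, Matrix.mul_sum, ← Finset.sum_neg_distrib]
      refine sum_congr rfl fun l _ => ?_
      rw [transpose_smul, Matrix.mul_smul, phi, rc_neg, rc_mul, rc_transpose, smul_neg]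
    have e2 : ∑ l, T.x l i • rc (Θ l) = -(A.yᵀ * rc (Θ i)) - rc (Θ i) * B.y := by
      have := hΘ i
      rw [add_assoc] at this
      rw [eq_neg_of_add_eq_zero_left this]
      abel
    rw [e1, e2, transpose_sub, transpose_neg, transpose_mul, transpose_mul, transpose_transpose,
      Matrix.mul_sub, Matrix.mul_neg, ← Matrix.mul_assoc (rc B.E⁻¹) B.yᵀ, inv_skew, phi, rc_neg,
      rc_mul, rc_transpose]
    simp only [Matrix.neg_mul, Matrix.mul_neg, Matrix.mul_assoc]
    abel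
  obtain ⟨c, hc, hc'⟩ := core h T hn hs ht A.y B.y A.sq (psi A Θ) (phi B Θ) h1 h2
  obtain ⟨d, hd, hd'⟩ := core h T hn hs ht B.y A.y B.sq (phi B Θ) (psi A Θ) h2 h1
  exact ⟨c, d, hc, hd, hc', hd'⟩

end

end Pool.Agent.W461.KS
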